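import Pool.Agent.AML.Z.Z3

/-!
# MP_f20117_gt, Q1: an arithmetic modular link of type `d = 2`

Let `L` be the union of the canonical lifts of the four closed geodesics with words `LLR`, `LRR`, `LLLLRR`, `LLRRRR` on the
modular surface. Then `T¹M ∖ L` is homeomorphic to `Γ \ ℍ³` for a subgroup `Γ` of finite index in `SL(2, ℤ[√-2])` which acts
freely (modulo `±1`) and properly discontinuously on hyperbolic 3-space. So the answer to Q1 is yes.
-/

set_option linter.style.longLine false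

open Matrix Topology
open scoped MatrixGroups

namespace Pool.Agent.Results.MP_f20117_gt.ArithmeticSqrtMinusTwo

open Pool.AML

/-- `L = (1 0; 1 1)`. -/
def mL : SL(2, ℤ) := ⟨!![1, 0; 1, 1], by simp [Matrix.det_fin_two]⟩

/-- `R = (1 1; 0 1)`. -/
def mR : SL(2, ℤ) := ⟨!![1, 1; 0, 1], by simp [Matrix.det_fin_two]⟩

/-- the words `LLR`, `LRR`, `LLLLRR`, `LLRRRR`. -/
def words : Finset SL(2, ℤ) := {mL ^ 2 * mR, mL * mR ^ 2, mL ^ 4 * mR ^ 2, mL ^ 2 * mR ^ 4}

theorem words_eq : words = S4 := by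
  have h1 : mL ^ 2 * mR = A1 := by decide
  have h2 : mL * mR ^ 2 = A2 := by decide
  have h3 : mL ^ 4 * mR ^ 2 = A3 := by decide
  have h4 : mL ^ 2 * mR ^ 4 = A4 := by decide
  rw [words, h1, h2, h3, h4, S4]

theorem result :
    (∃ d : ℕ, Squarefree d ∧ d ≠ 1 ∧ ∃ L : Set T1M, IsModularLink L ∧ IsArithmeticOfType L d) ∧
    IsModularLink (modularLink words) ∧
    ∃ Γ : Subgroup SL(2, ℂ), Γ ≤ SLO 2 ∧ Γ.relIndex (SLO 2) ≠ 0 ∧
      HasHolonomy {x : T1M // x ∉ modularLink words} Γ := by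
  refine ⟨⟨2, Nat.prime_two.prime.squarefree, by norm_num, final⟩, ?_, ?_⟩
  · rw [words_eq]; exact isModularLink_S4
  · rw [words_eq, SLO_two]; exact main

end Pool.Agent.Results.MP_f20117_gt.ArithmeticSqrtMinusTwo
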